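import Mathlib
import Pool.Agent.Q76.HM.Stm

/-! # Project HM, JOB HEL -/

set_option autoImplicit false

open MeasureTheory Set
open scoped ENNReal

namespace Pool.Agent.Q225.HM

open Pool.Agent.Q76.HM

/-- transfer of an equality of lower integrals to Bochner integrals -/
theorem transfer {α E : Type} [MeasurableSpace α] [NormedAddCommGroup E] [NormedSpace ℝ E] (μ : Measure α)
    (k : α → ℝ) (hk : Measurable k) (hk0 : ∀ y, 0 ≤ k y) (A : α → ℝ) (hA : Measurable A) (w : ℝ → ℝ)
    (hw : Measurable w) (hw0 : ∀ τ, 0 ≤ w τ) (c : ℝ)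
    (H : ∀ g : ℝ → ℝ≥0∞, Measurable g → ∫⁻ y, ENNReal.ofReal (k y) * g (A y) ∂μ =
      ∫⁻ τ : ℝ, ENNReal.ofReal (w τ) * g (c + τ))
    (F : ℝ → E) (hF : StronglyMeasurable F) (hint : Integrable fun τ : ℝ => w τ • F (c + τ)) :
    Integrable (fun y => k y • F (A y)) μ ∧ ∫ y, k y • F (A y) ∂μ = ∫ τ : ℝ, w τ • F (c + τ) := by
  have hT : Measurable fun τ : ℝ => c + τ := measurable_const.add measurable_id
  have hm : (μ.withDensity fun y => ENNReal.ofReal (k y)).map A =
      ((volume : Measure ℝ).withDensity fun τ => ENNReal.ofReal (w τ)).map (fun τ => c + τ) := by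
    ext s hs
    rw [Measure.map_apply hA hs, Measure.map_apply hT hs, withDensity_apply _ (hA hs),
      withDensity_apply _ (hT hs), ← lintegral_indicator (hA hs), ← lintegral_indicator (hT hs)]
    have h1 := H (s.indicator fun _ => 1) (measurable_const.indicator hs)
    refine (lintegral_congr fun y => ?_).trans (h1.trans (lintegral_congr fun τ => ?_))
    · by_cases hy : A y ∈ s
      · rw [indicator_of_mem (show y ∈ A ⁻¹' s from hy), indicator_of_mem hy, mul_one]
      · rw [indicator_of_notMem (show y ∉ A ⁻¹' s from hy), indicator_of_notMem hy, mul_zero]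
    · by_cases hy : c + τ ∈ s
      · rw [indicator_of_mem (show τ ∈ (fun τ => c + τ) ⁻¹' s from hy), indicator_of_mem hy, mul_one]
      · rw [indicator_of_notMem (show τ ∉ (fun τ => c + τ) ⁻¹' s from hy), indicator_of_notMem hy, mul_zero]
  have e1 : ∀ y, (ENNReal.ofReal (k y)).toReal = k y := fun y => ENNReal.toReal_ofReal (hk0 y)
  have e2 : ∀ τ, (ENNReal.ofReal (w τ)).toReal = w τ := fun τ => ENNReal.toReal_ofReal (hw0 τ)
  have hkm : Measurable fun y => ENNReal.ofReal (k y) := hk.ennreal_ofReal
  have hwm : Measurable fun τ => ENNReal.ofReal (w τ) := hw.ennreal_ofReal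
  have i2 : Integrable F (((volume : Measure ℝ).withDensity fun τ => ENNReal.ofReal (w τ)).map (fun τ => c + τ)) := by
    rw [integrable_map_measure hF.aestronglyMeasurable hT.aemeasurable,
      integrable_withDensity_iff_integrable_smul' hwm (Filter.Eventually.of_forall fun _ => ENNReal.ofReal_lt_top)]
    simpa only [e2, Function.comp] using hint
  have j2 : ∫ σ, F σ ∂(((volume : Measure ℝ).withDensity fun τ => ENNReal.ofReal (w τ)).map (fun τ => c + τ)) =
      ∫ τ : ℝ, w τ • F (c + τ) := by
    rw [integral_map hT.aemeasurable hF.aestronglyMeasurable,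
      integral_withDensity_eq_integral_toReal_smul hwm (Filter.Eventually.of_forall fun _ => ENNReal.ofReal_lt_top)]
    simp only [e2]
  rw [← hm] at i2 j2
  constructor
  · rw [integrable_map_measure hF.aestronglyMeasurable hA.aemeasurable,
      integrable_withDensity_iff_integrable_smul' hkm (Filter.Eventually.of_forall fun _ => ENNReal.ofReal_lt_top)] at i2
    simpa only [e1, Function.comp] using i2
  · rw [← j2, integral_map hA.aemeasurable hF.aestronglyMeasurable,
      integral_withDensity_eq_integral_toReal_smul hkm (Filter.Eventually.of_forall fun _ => ENNReal.ofReal_lt_top)]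
    simp only [e1]

/-- the exponent of the wave -/
theorem wav_eq (h3 : S_ISO) (h4 : S_HOR) (h5 : S_HRB) (γ : ℝ) (hγ : 0 < γ) (l : ℂ) (b : Option ℂ) :
    ∃ A : ℂ × ℝ → ℝ, Continuous A ∧ (∀ x, wav l b x = Complex.exp ((1 - Complex.I * l) * (A x : ℂ))) ∧
      ∀ (x : ℂ × ℝ) (g : ℝ → ℝ≥0∞), Measurable g →
        ∫⁻ y : ℂ × ℝ, ENNReal.ofReal (Kc γ (ch x y)) * g (A y) =
          ∫⁻ τ : ℝ, ENNReal.ofReal (Real.exp (-τ) * kap γ τ) * g (A x + τ) := by
  obtain ⟨-, -, -, -, -, -, -, -, -, -, -, -, hPc, hPp⟩ := h3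
  cases b with
  | none => exact ⟨fun x => x.2, continuous_snd, fun x => rfl, fun x g hg => h4 γ hγ x g hg⟩
  | some b =>
    refine ⟨fun x => Real.log (Pk b x) - Real.log (Pk b (0, 0)), ?_, fun x => rfl, ?_⟩
    · refine Continuous.sub (Continuous.log ?_ fun x => (hPp b x).ne') continuous_const
      exact hPc.comp (Continuous.prodMk continuous_const continuous_id)
    · intro x g hg
      have h1 := h5 γ hγ b x (fun σ => g (σ - Real.log (Pk b (0, 0)))) (hg.comp (measurable_id.sub_const _))
      refine h1.trans (lintegral_congr fun τ => ?_)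
      simp only
      rw [add_sub_right_comm]

theorem hel (h1 : S_KAP) (h2 : S_FTK) (h3 : S_ISO) (h4 : S_HOR) (h5 : S_HRB) : S_HEL := by
  intro γ hγ hγ1 f hf hfc l hl b
  obtain ⟨A, hAc, hAw, hU⟩ := wav_eq h3 h4 h5 γ hγ l b
  obtain ⟨-, -, -, -, -, -, -, -, -, hsymm, -, hchc, -, -⟩ := h3
  obtain ⟨hkc, hkp, -, -, hKm, hK0, -⟩ := h1 γ hγ
  obtain ⟨hF1, hF2⟩ := h2 γ hγ (-l) (by rwa [Complex.neg_im, abs_neg])
  set J : ℂ := 1 - Complex.tanh (Real.pi * l / (4 * γ)) ^ 2 with hJ
  have hJ2 : ∫ τ : ℝ, (kap γ τ : ℂ) * Complex.exp (Complex.I * (-l) * τ) = J := by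
    rw [hF2, hJ, mul_neg, neg_div, Complex.tanh_neg, neg_sq]
  set F : ℝ → ℂ := fun σ => Complex.exp ((1 - Complex.I * l) * (σ : ℂ)) with hF
  have hFc : Continuous F := by
    rw [hF]
    fun_prop
  have hFne : ∀ σ τ, F (σ + τ) = F σ * F τ := by
    intro σ τ
    simp only [hF]
    rw [← Complex.exp_add]
    congr 1
    push_cast
    ring
  set w : ℝ → ℝ := fun τ => Real.exp (-τ) * kap γ τ with hw
  have hwm : Measurable w := ((Real.continuous_exp.comp continuous_neg).mul hkc).measurable
  have hw0 : ∀ τ, 0 ≤ w τ := fun τ => mul_nonneg (Real.exp_pos _).le (hkp τ).le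
  have hwF : ∀ c τ : ℝ, w τ • F (c + τ) = F c * ((kap γ τ : ℂ) * Complex.exp (Complex.I * (-l) * τ)) := by
    intro c τ
    rw [hFne, Complex.real_smul]
    simp only [hw, hF]
    push_cast
    have : Complex.exp (-(τ : ℂ)) * Complex.exp ((1 - Complex.I * l) * τ) = Complex.exp (Complex.I * (-l) * τ) := by
      rw [← Complex.exp_add]
      congr 1
      ring
    rw [← this]
    ring
  have hkm : ∀ x, Measurable fun y => Kc γ (ch x y) := fun x =>
    hKm.comp ((hchc.comp (Continuous.prodMk continuous_const continuous_id)).measurable)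
  have hI : ∀ x, Integrable (fun y => Kc γ (ch x y) • F (A y)) ∧ ∫ y, Kc γ (ch x y) • F (A y) = F (A x) * J := by
    intro x
    have h6 := transfer volume (fun y => Kc γ (ch x y)) (hkm x) (fun y => hK0 _) A hAc.measurable w hwm hw0 (A x)
      (hU x) F hFc.stronglyMeasurable (by
        simp only [hwF]
        exact hF1.const_mul _)
    refine ⟨h6.1, h6.2.trans ?_⟩
    simp only [hwF]
    rw [integral_const_mul, hJ2]
  -- norms
  set F' : ℝ → ℝ := fun σ => ‖F σ‖ with hF'
  have hF'c : Continuous F' := hFc.norm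
  set M : ℝ := ∫ τ : ℝ, ‖(kap γ τ : ℂ) * Complex.exp (Complex.I * (-l) * τ)‖ with hM
  have hwF' : ∀ c τ : ℝ, w τ • F' (c + τ) = F' c * ‖(kap γ τ : ℂ) * Complex.exp (Complex.I * (-l) * τ)‖ := by
    intro c τ
    have := congrArg norm (hwF c τ)
    rw [norm_smul, Real.norm_of_nonneg (hw0 τ), norm_mul (F c)] at this
    exact this
  have hI' : ∀ x, ∫ y, Kc γ (ch x y) • F' (A y) = F' (A x) * M := by
    intro x
    have h6 := transfer volume (fun y => Kc γ (ch x y)) (hkm x) (fun y => hK0 _) A hAc.measurable w hwm hw0 (A x)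
      (hU x) F' hF'c.stronglyMeasurable (by
        simp only [hwF']
        exact hF1.norm.const_mul _)
    refine h6.2.trans ?_
    simp only [hwF']
    rw [integral_const_mul]
  have hwav : ∀ x, wav l b x = F (A x) := hAw
  -- the product
  set G : (ℂ × ℝ) × (ℂ × ℝ) → ℂ := fun q => (Kc γ (ch q.1 q.2) : ℂ) * f q.2 * F (A q.1) with hG
  have hGm : AEStronglyMeasurable G ((volume : Measure (ℂ × ℝ)).prod (volume : Measure (ℂ × ℝ))) := by
    have m1 : Measurable fun q : (ℂ × ℝ) × (ℂ × ℝ) => (Kc γ (ch q.1 q.2) : ℂ) :=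
      Complex.measurable_ofReal.comp (hKm.comp hchc.measurable)
    exact ((m1.mul (hf.measurable.comp measurable_snd)).mul
      ((hFc.comp hAc).measurable.comp measurable_fst)).aestronglyMeasurable
  have hGi : Integrable G ((volume : Measure (ℂ × ℝ)).prod (volume : Measure (ℂ × ℝ))) := by
    rw [integrable_prod_iff' hGm]
    constructor
    · refine Filter.Eventually.of_forall fun y => ?_
      have := (hI y).1.const_mul (f y)
      refine this.congr (Filter.Eventually.of_forall fun x => ?_)
      simp only [hG, Complex.real_smul]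
      rw [hsymm y x]
      ring
    · have e1 : (fun y => ∫ x, ‖G (x, y)‖) = fun y => ‖f y‖ * (F' (A y) * M) := by
        funext y
        rw [← hI' y, ← integral_const_mul]
        refine integral_congr_ae (Filter.Eventually.of_forall fun x => ?_)
        simp only [hG, hF', smul_eq_mul]
        rw [norm_mul, norm_mul, Complex.norm_real, Real.norm_of_nonneg (hK0 _), hsymm y x]
        ring
      rw [e1]
      apply Continuous.integrable_of_hasCompactSupport
      · exact hf.norm.mul ((hF'c.comp hAc).mul continuous_const)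
      · exact hfc.norm.mul_right
  have hfw : Integrable fun x => f x * wav l b x := by
    simp only [hwav]
    exact (hf.mul (hFc.comp hAc)).integrable_of_hasCompactSupport hfc.mul_right
  have hsplit : (fun x => (f x - ∫ y, (Kc γ (ch x y) : ℂ) * f y) * wav l b x) =
      fun x => f x * wav l b x - ∫ y, G (x, y) := by
    funext x
    rw [sub_mul, hwav, ← integral_mul_const]
  have hG1 : Integrable fun x => ∫ y, G (x, y) := hGi.integral_prod_left
  have hG2 : ∫ x, ∫ y, G (x, y) = J * ∫ x, f x * wav l b x := by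
    rw [integral_integral_swap (f := fun x y => G (x, y)) hGi, ← integral_const_mul]
    refine integral_congr_ae (Filter.Eventually.of_forall fun y => ?_)
    simp only
    have h6 : ∫ x, G (x, y) = f y * ∫ x, Kc γ (ch y x) • F (A x) := by
      rw [← integral_const_mul]
      refine integral_congr_ae (Filter.Eventually.of_forall fun x => ?_)
      simp only [hG, Complex.real_smul]
      rw [hsymm y x]
      ring
    rw [h6, (hI y).2, hwav]
    ring
  rw [hsplit]
  refine ⟨hfw.sub hG1, ?_⟩
  rw [integral_sub hfw hG1, hG2, hJ]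
  ring

end Pool.Agent.Q225.HM
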